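import Mathlib

/-!
Project IA (helper598, MP_56d946_al): the isomorphism problem for self-similar groups.
Definitions.
-/

set_option autoImplicit false

namespace Pool.Agent.W598.IA

/-- A finite invertible automaton with `m` states over the alphabet `Fin n`: `next` is the
transition map, `out s` is the permutation of the letters defined by the output map at `s`. -/
structure Automaton (m n : ℕ) where
  /-- the transition map -/
  next : Fin m → Fin n → Fin m
  /-- the output map -/
  out : Fin m → Equiv.Perm (Fin n)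

namespace Automaton

variable {m n : ℕ} (A : Automaton m n)

/-- The action of the states on words: `s (x w) = out s x · (next s x) (w)`. -/
def act : Fin m → List (Fin n) → List (Fin n)
  | _, [] => []
  | s, x :: w => A.out s x :: act (A.next s x) w

/-- The self-similar group `G(A)`: the group of permutations of the set of words generated by the
states of `A`. -/
def group : Subgroup (Equiv.Perm (List (Fin n))) :=
  Subgroup.closure {g | ∃ s, ∀ w, g w = A.act s w}

/-- the tables of the automaton -/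
def rows : List (List (ℕ × ℕ)) :=
  List.ofFn fun s => List.ofFn fun x => ((A.next s x : ℕ), (A.out s x : ℕ))

/-- The input of an algorithm: number of states, number of letters, and the tables. -/
def code : ℕ × ℕ × List (List (ℕ × ℕ)) := (m, n, A.rows)

end Automaton

/-! ### Semidirect products -/

/-- `SL_2(ℤ)` -/
abbrev S2 : Type := Matrix.SpecialLinearGroup (Fin 2) ℤ

/-- `ℤ²` -/
abbrev Z2 : Type := Fin 2 → ℤ

/-- the linear action of `SL_2(ℤ)` on `ℤ²` -/
def lin (α : S2) (v : Z2) : Z2 := α.1.mulVec v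

theorem lin_add (α : S2) (v w : Z2) : lin α (v + w) = lin α v + lin α w :=
  Matrix.mulVec_add _ _ _

theorem lin_sub (α : S2) (v w : Z2) : lin α (v - w) = lin α v - lin α w :=
  Matrix.mulVec_sub _ _ _

theorem lin_neg (α : S2) (v : Z2) : lin α (-v) = -lin α v := Matrix.mulVec_neg _ _

theorem lin_zero (α : S2) : lin α 0 = 0 := Matrix.mulVec_zero _

theorem lin_one (v : Z2) : lin 1 v = v := Matrix.one_mulVec _

theorem lin_mul (α β : S2) (v : Z2) : lin (α * β) v = lin α (lin β v) := by
  unfold lin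
  rw [Matrix.mulVec_mulVec, Matrix.SpecialLinearGroup.coe_mul]

theorem lin_zsmul (α : S2) (c : ℤ) (v : Z2) : lin α (c • v) = c • lin α v :=
  Matrix.mulVec_smul _ _ _

theorem lin_inv (α : S2) (v : Z2) : lin α⁻¹ (lin α v) = v := by
  rw [← lin_mul, inv_mul_cancel, lin_one]

theorem lin_inv' (α : S2) (v : Z2) : lin α (lin α⁻¹ v) = v := by
  rw [← lin_mul, mul_inv_cancel, lin_one]

/-- The semidirect product of `ℤ²` and a group `F` acting through `ρ : F →* SL_2(ℤ)`; the element
`⟨l, t⟩` stands for the affine map `v ↦ ρ(l) v + t`. -/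
@[ext] structure SD {F : Type} [Group F] (ρ : F →* S2) where
  /-- linear part -/
  l : F
  /-- translation part -/
  t : Z2

namespace SD

variable {F : Type} [Group F] {ρ : F →* S2}

instance : Group (SD ρ) where
  mul g h := ⟨g.l * h.l, g.t + lin (ρ g.l) h.t⟩
  one := ⟨1, 0⟩
  inv g := ⟨g.l⁻¹, -lin (ρ g.l⁻¹) g.t⟩
  mul_assoc g h k := by
    apply SD.ext
    · exact mul_assoc _ _ _
    · show g.t + lin (ρ g.l) h.t + lin (ρ (g.l * h.l)) k.t =
        g.t + lin (ρ g.l) (h.t + lin (ρ h.l) k.t)
      rw [map_mul, lin_mul, lin_add, add_assoc]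
  one_mul g := by
    apply SD.ext
    · exact one_mul _
    · show 0 + lin (ρ 1) g.t = g.t
      rw [map_one, lin_one, zero_add]
  mul_one g := by
    apply SD.ext
    · exact mul_one _
    · show g.t + lin (ρ g.l) 0 = g.t
      rw [lin_zero, add_zero]
  inv_mul_cancel g := by
    apply SD.ext
    · exact inv_mul_cancel _
    · show -lin (ρ g.l⁻¹) g.t + lin (ρ g.l⁻¹) g.t = 0
      rw [neg_add_cancel]

@[simp] theorem mul_l (g h : SD ρ) : (g * h).l = g.l * h.l := rfl
@[simp] theorem mul_t (g h : SD ρ) : (g * h).t = g.t + lin (ρ g.l) h.t := rfl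
@[simp] theorem one_l : (1 : SD ρ).l = 1 := rfl
@[simp] theorem one_t : (1 : SD ρ).t = 0 := rfl
@[simp] theorem inv_l (g : SD ρ) : g⁻¹.l = g.l⁻¹ := rfl
@[simp] theorem inv_t (g : SD ρ) : g⁻¹.t = -lin (ρ g.l⁻¹) g.t := rfl

/-- the projection to the linear part -/
def proj (ρ : F →* S2) : SD ρ →* F where
  toFun g := g.l
  map_one' := rfl
  map_mul' _ _ := rfl

@[simp] theorem proj_apply (g : SD ρ) : proj ρ g = g.l := rfl

/-- the affine action on `ℤ²` -/
instance : MulAction (SD ρ) Z2 where
  smul g v := lin (ρ g.l) v + g.t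
  one_smul v := by
    show lin (ρ 1) v + 0 = v
    rw [map_one, lin_one, add_zero]
  mul_smul g h v := by
    show lin (ρ (g.l * h.l)) v + (g.t + lin (ρ g.l) h.t) = lin (ρ g.l) (lin (ρ h.l) v + h.t) + g.t
    rw [map_mul, lin_mul, lin_add]
    abel

theorem smul_def (g : SD ρ) (v : Z2) : g • v = lin (ρ g.l) v + g.t := rfl

/-- the componentwise affine action of pairs on `ℤ² × ℤ²` -/
instance : MulAction (SD ρ × SD ρ) (Z2 × Z2) where
  smul g v := (g.1 • v.1, g.2 • v.2)
  one_smul v := by
    show ((1 : SD ρ) • v.1, (1 : SD ρ) • v.2) = v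
    rw [one_smul, one_smul]
  mul_smul g h v := by
    show ((g.1 * h.1) • v.1, (g.2 * h.2) • v.2) = (g.1 • h.1 • v.1, g.2 • h.2 • v.2)
    rw [mul_smul, mul_smul]

theorem smul_def₂ (g : SD ρ × SD ρ) (v : Z2 × Z2) : g • v = (g.1 • v.1, g.2 • v.2) := rfl

end SD

/-- the commutator `x y x⁻¹ y⁻¹` -/
def cm {A : Type} [Group A] (x y : A) : A := x * y * x⁻¹ * y⁻¹

/-! ### Fibre products -/

/-- The fibre product of two copies of `A` over `A / N`. -/
def fib {A : Type} [Group A] (N : Subgroup A) [hN : N.Normal] : Subgroup (A × A) where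
  carrier := {p | p.1 * p.2⁻¹ ∈ N}
  mul_mem' := by
    rintro ⟨a, b⟩ ⟨c, d⟩ h1 h2
    have h3 : a * c * (b * d)⁻¹ = a * (c * d⁻¹) * a⁻¹ * (a * b⁻¹) := by group
    show a * c * (b * d)⁻¹ ∈ N
    rw [h3]
    exact N.mul_mem (hN.conj_mem _ h2 _) h1
  one_mem' := by
    show (1 : A) * (1 : A)⁻¹ ∈ N
    rw [inv_one, mul_one]
    exact N.one_mem
  inv_mem' := by
    rintro ⟨a, b⟩ h
    have h3 : a⁻¹ * b⁻¹⁻¹ = a⁻¹ * (a * b⁻¹)⁻¹ * a⁻¹⁻¹ := by group
    show a⁻¹ * b⁻¹⁻¹ ∈ N
    rw [h3]
    exact hN.conj_mem _ (N.inv_mem h) _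

theorem mem_fib {A : Type} [Group A] (N : Subgroup A) [N.Normal] (p : A × A) :
    p ∈ fib N ↔ p.1 * p.2⁻¹ ∈ N := Iff.rfl

/-! ### Composite automata -/

/-- the number of states of the composite automaton of a word -/
def cstates {ι : Type} (M : ℕ) : List ι → ℕ
  | [] => 1
  | _ :: w => M * cstates M w

/-- The composite automaton of a word `w = i_1 … i_l`: the states are the sequences
`(s_1, …, s_l)`, where `s_j` is a state of the automaton of the letter `i_j`; a letter of the
alphabet passes through `s_l`, then `s_(l-1)`, …, `s_1`. -/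
def comp {ι : Type} {M n : ℕ} (a : ι → Automaton M n) : (w : List ι) → Automaton (cstates M w) n
  | [] => ⟨fun _ _ => ⟨0, Nat.one_pos⟩, fun _ => 1⟩
  | i :: w =>
    ⟨fun s x => finProdFinEquiv
        ((a i).next (finProdFinEquiv.symm s).1 ((comp a w).out (finProdFinEquiv.symm s).2 x),
          (comp a w).next (finProdFinEquiv.symm s).2 x),
      fun s => (a i).out (finProdFinEquiv.symm s).1 * (comp a w).out (finProdFinEquiv.symm s).2⟩

end Pool.Agent.W598.IA
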