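import Pool.Agent.W598.IA.Stm

/-!
Project IA (helper598): the family of automata.
-/

set_option autoImplicit false

namespace Pool.Agent.W598.IA

open Subgroup

namespace Automaton

variable {m m' n K M : ℕ}

/-- disjoint union of `K` automata with `M` states -/
def union (a : Fin K → Automaton M n) : Automaton (K * M) n :=
  ⟨fun s x => finProdFinEquiv ((finProdFinEquiv.symm s).1,
      (a (finProdFinEquiv.symm s).1).next (finProdFinEquiv.symm s).2 x),
    fun s => (a (finProdFinEquiv.symm s).1).out (finProdFinEquiv.symm s).2⟩

/-- disjoint union of two automata -/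
def sum (A : Automaton m n) (B : Automaton m' n) : Automaton (m + m') n :=
  ⟨Fin.addCases (fun s x => Fin.castAdd m' (A.next s x)) (fun s x => Fin.natAdd m (B.next s x)),
    Fin.addCases A.out B.out⟩

theorem rows_sum (A : Automaton m n) (B : Automaton m' n) :
    (A.sum B).rows = A.rows ++ B.rows.map (fun r => r.map fun e => (m + e.1, e.2)) := by
  unfold rows
  rw [List.ofFn_add]
  congr 1
  · congr 1
    funext s
    congr 1
    funext x
    have h : (Fin.castLE (Nat.le_add_right m m') s) = Fin.castAdd m' s := rfl
    simp only [sum, h, Fin.addCases_left, Fin.val_castAdd]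
  · rw [List.map_ofFn]
    congr 1
    funext s
    simp only [Function.comp]
    rw [List.map_ofFn]
    congr 1
    funext x
    simp [sum]

end Automaton

/-- `f` realises the states of `A` as elements of `B` -/
def Real {V B : Type} [AddCommGroup V] [Group B] [MulAction B V] {m n : ℕ} (dig : Fin n → V)
    (A : Automaton m n) (f : Fin m → B) : Prop :=
  ∀ s x (y : V), f s • (dig x + (2 : ℤ) • y) = dig (A.out s x) + (2 : ℤ) • (f (A.next s x) • y)

section
variable {V B : Type} [AddCommGroup V] [Group B] [MulAction B V] {m m' n K M : ℕ}
  (dig : Fin n → V)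

theorem Real.sum {A : Automaton m n} {A' : Automaton m' n} {f : Fin m → B} {f' : Fin m' → B}
    (h : Real dig A f) (h' : Real dig A' f') :
    Real dig (A.sum A') (Fin.addCases f f' : Fin (m + m') → B) := by
  intro s x y
  induction s using Fin.addCases with
  | left s => simpa [Automaton.sum] using h s x y
  | right s => simpa [Automaton.sum] using h' s x y

theorem Real.union {a : Fin K → Automaton M n} {f : Fin K → Fin M → B}
    (h : ∀ i, Real dig (a i) (f i)) :
    Real dig (Automaton.union a)
      (fun s => f (finProdFinEquiv.symm s).1 (finProdFinEquiv.symm s).2) := by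
  intro s x y
  have := h (finProdFinEquiv.symm s).1 (finProdFinEquiv.symm s).2 x y
  simp only [Automaton.union, Equiv.symm_apply_apply]
  exact this

/-- the elements of the composite automaton -/
def cf {ι : Type} (f : ι → Fin M → B) : (w : List ι) → Fin (cstates M w) → B
  | [] => fun _ => 1
  | i :: w => fun s => f i (finProdFinEquiv.symm s).1 * cf f w (finProdFinEquiv.symm s).2

theorem Real.comp {ι : Type} {a : ι → Automaton M n} {f : ι → Fin M → B}
    (h : ∀ i, Real dig (a i) (f i)) (w : List ι) : Real dig (IA.comp a w) (cf f w) := by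
  induction w with
  | nil =>
    intro s x y
    simp [IA.comp, cf]
  | cons i w ih =>
    intro s x y
    have h1 := ih (finProdFinEquiv.symm s).2 x y
    have h2 := h i (finProdFinEquiv.symm s).1
      ((IA.comp a w).out (finProdFinEquiv.symm s).2 x)
      (cf f w ((IA.comp a w).next (finProdFinEquiv.symm s).2 x) • y)
    simp only [IA.comp, cf, Equiv.symm_apply_apply, mul_smul, Equiv.Perm.coe_mul,
      Function.comp_apply]
    rw [h1, h2]

/-- the group generated by a realised automaton -/
theorem group_eq (Φ : B →* Equiv.Perm (List (Fin n)))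
    (hΦ : ∀ (m : ℕ) (A : Automaton m n) (f : Fin m → B), Real dig A f →
      ∀ s w, Φ (f s) w = A.act s w)
    (A : Automaton m n) (f : Fin m → B) (h : Real dig A f) :
    A.group = (Subgroup.closure (Set.range f)).map Φ := by
  unfold Automaton.group
  rw [MonoidHom.map_closure]
  congr 1
  ext g
  constructor
  · rintro ⟨s, hs⟩
    refine ⟨f s, ⟨s, rfl⟩, ?_⟩
    apply Equiv.ext
    intro w
    rw [hΦ m A f h, hs]
  · rintro ⟨_, ⟨s, rfl⟩, rfl⟩
    exact ⟨s, fun w => hΦ m A f h s w⟩

end

end Pool.Agent.W598.IA
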