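import Pool.Agent.W598.IA.Rigid
import Pool.Agent.W598.IA.Fam

/-!
Project IA (helper598): the isomorphism problem for self-similar groups, assembly.
-/

set_option autoImplicit false

namespace Pool.Agent.W598.IA

open Subgroup

section
variable {F : Type} [Group F] (ρ : F →* S2)

theorem faithful (hρ : Function.Injective ρ) :
    FaithfulSMul (SD ρ × SD ρ) (Z2 × Z2) := by
  have key : ∀ g h : SD ρ, (∀ v : Z2, g • v = h • v) → g = h := by
    intro g h hv
    have h0 : g.t = h.t := by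
      have := hv 0
      rwa [SD.smul_def, SD.smul_def, lin_zero, lin_zero, zero_add, zero_add] at this
    have h1 : ρ g.l = ρ h.l := by
      apply Subtype.ext
      apply Matrix.mulVec_injective
      funext v
      have := hv v
      rw [SD.smul_def, SD.smul_def, h0] at this
      exact add_right_cancel this
    exact SD.ext (hρ h1) h0
  constructor
  rintro ⟨g1, g2⟩ ⟨h1, h2⟩ h
  have e1 := key g1 h1 fun v => congrArg Prod.fst (h (v, 0))
  have e2 := key g2 h2 fun v => congrArg Prod.snd (h (0, v))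
  rw [e1, e2]

theorem congr_pres (b : SD ρ × SD ρ) (k : ℕ) (x y : Z2 × Z2)
    (h : ∃ z, x - y = (2 ^ k : ℤ) • z) : ∃ z, b • x - b • y = (2 ^ k : ℤ) • z := by
  obtain ⟨z, hz⟩ := h
  refine ⟨(lin (ρ b.1.l) z.1, lin (ρ b.2.l) z.2), ?_⟩
  have h1 : x.1 - y.1 = (2 ^ k : ℤ) • z.1 := congrArg Prod.fst hz
  have h2 : x.2 - y.2 = (2 ^ k : ℤ) • z.2 := congrArg Prod.snd hz
  apply Prod.ext
  · show (lin (ρ b.1.l) x.1 + b.1.t) - (lin (ρ b.1.l) y.1 + b.1.t) =
      (2 ^ k : ℤ) • lin (ρ b.1.l) z.1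
    rw [add_sub_add_right_eq_sub, ← lin_sub, h1, lin_zsmul]
  · show (lin (ρ b.2.l) x.2 + b.2.t) - (lin (ρ b.2.l) y.2 + b.2.t) =
      (2 ^ k : ℤ) • lin (ρ b.2.l) z.2
    rw [add_sub_add_right_eq_sub, ← lin_sub, h2, lin_zsmul]

end

theorem int_sep (a : ℤ) (h : ∀ k : ℕ, ∃ y : ℤ, a = 2 ^ k * y) : a = 0 := by
  by_contra ha
  obtain ⟨y, hy⟩ := h a.natAbs
  have h1 : (2 : ℤ) ^ a.natAbs ∣ a := ⟨y, hy⟩
  have h2 := Int.natAbs_dvd_natAbs.2 h1
  rw [Int.natAbs_pow] at h2
  have h3 := Nat.le_of_dvd (Int.natAbs_pos.2 ha) h2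
  have h4 : a.natAbs < 2 ^ a.natAbs := Nat.lt_two_pow_self
  have h5 : (2 : ℤ).natAbs = 2 := rfl
  rw [h5] at h3
  omega

theorem sep (v : Z2 × Z2) (h : ∀ k : ℕ, ∃ y : Z2 × Z2, v = (2 ^ k : ℤ) • y) : v = 0 := by
  apply Prod.ext
  · funext j
    apply int_sep
    intro k
    obtain ⟨y, hy⟩ := h k
    exact ⟨y.1 j, by rw [hy]; rfl⟩
  · funext j
    apply int_sep
    intro k
    obtain ⟨y, hy⟩ := h k
    exact ⟨y.2 j, by rw [hy]; rfl⟩

theorem fib_congr {A : Type} [Group A] {N₁ N₂ : Subgroup A} [N₁.Normal] [N₂.Normal]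
    (h : N₁ = N₂) : fib N₁ = fib N₂ := by
  subst h
  rfl

section
variable {F : Type} [Group F] {ρ : F →* S2}

/-- translations -/
def tau (ρ : F →* S2) (c : Z2 × Z2) : SD ρ × SD ρ := (⟨1, c.1⟩, ⟨1, c.2⟩)

theorem tau_add (c d : Z2 × Z2) : tau ρ (c + d) = tau ρ c * tau ρ d := by
  apply Prod.ext
  · apply SD.ext
    · simp [tau]
    · simp [tau, lin_one]
  · apply SD.ext
    · simp [tau]
    · simp [tau, lin_one]

theorem tau_zero : tau ρ 0 = 1 := rfl

theorem tau_neg (c : Z2 × Z2) : tau ρ (-c) = (tau ρ c)⁻¹ := by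
  rw [eq_inv_iff_mul_eq_one, ← tau_add, neg_add_cancel, tau_zero]

/-- the linear section -/
def sig (ρ : F →* S2) : F × F →* SD ρ × SD ρ where
  toFun u := (⟨u.1, 0⟩, ⟨u.2, 0⟩)
  map_one' := rfl
  map_mul' u v := by
    apply Prod.ext
    · apply SD.ext
      · simp
      · simp [lin_zero]
    · apply SD.ext
      · simp
      · simp [lin_zero]

theorem tau_mem_of_units (C : Subgroup (SD ρ × SD ρ))
    (h : ∀ c : Z2 × Z2, (∀ j, |c.1 j| ≤ 1) → (∀ j, |c.2 j| ≤ 1) → tau ρ c ∈ C) (c : Z2 × Z2) :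
    tau ρ c ∈ C := by
  let T : AddSubgroup (Z2 × Z2) :=
    { carrier := {c | tau ρ c ∈ C}
      add_mem' := by
        intro a b ha hb
        show tau ρ (a + b) ∈ C
        rw [tau_add]
        exact C.mul_mem ha hb
      zero_mem' := by
        show tau ρ 0 ∈ C
        rw [tau_zero]
        exact C.one_mem
      neg_mem' := by
        intro a ha
        show tau ρ (-a) ∈ C
        rw [tau_neg]
        exact C.inv_mem ha }
  have hT : ∀ c : Z2 × Z2, (∀ j, |c.1 j| ≤ 1) → (∀ j, |c.2 j| ≤ 1) → c ∈ T := h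
  have e : c = (c.1 0) • (![1, 0], 0) + (c.1 1) • (![0, 1], 0) +
      (c.2 0) • (0, ![1, 0]) + (c.2 1) • (0, ![0, 1]) := by
    apply Prod.ext
    · funext j
      fin_cases j <;> simp
    · funext j
      fin_cases j <;> simp
  have : c ∈ T := by
    rw [e]
    refine T.add_mem (T.add_mem (T.add_mem (T.zsmul_mem (hT _ ?_ ?_) _)
      (T.zsmul_mem (hT _ ?_ ?_) _)) (T.zsmul_mem (hT _ ?_ ?_) _)) (T.zsmul_mem (hT _ ?_ ?_) _)
    all_goals
      intro j
      fin_cases j <;> simp
  exact this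

theorem tau_mul_sig (g : SD ρ × SD ρ) : tau ρ (g.1.t, g.2.t) * sig ρ (g.1.l, g.2.l) = g := by
  apply Prod.ext
  · apply SD.ext
    · simp [tau, sig]
    · simp [tau, sig, lin_zero]
  · apply SD.ext
    · simp [tau, sig]
    · simp [tau, sig, lin_zero]

end

section
variable {k : ℕ}

/-- the linear part of the composite elements -/
theorem cf_lin (ρ : FreeGroup (Fin (k + 1)) →* S2) {M : ℕ}
    (f : Fin (k + 1) × Bool → Fin M → SD ρ × SD ρ)
    (hf : ∀ p s, (f p s).1.l = FreeGroup.mk [p] ∧ (f p s).2.l = 1)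
    (w : List (Fin (k + 1) × Bool)) : ∀ s, (cf f w s).1.l = FreeGroup.mk w ∧ (cf f w s).2.l = 1 := by
  induction w with
  | nil => intro s; exact ⟨FreeGroup.one_eq_mk, rfl⟩
  | cons p w ih =>
    intro s
    obtain ⟨h1, h2⟩ := ih (finProdFinEquiv.symm s).2
    obtain ⟨h3, h4⟩ := hf p (finProdFinEquiv.symm s).1
    constructor
    · show (f p (finProdFinEquiv.symm s).1).1.l * (cf f w (finProdFinEquiv.symm s).2).1.l = _
      rw [h1, h3, FreeGroup.mul_mk]
      rfl
    · show (f p (finProdFinEquiv.symm s).1).2.l * (cf f w (finProdFinEquiv.symm s).2).2.l = _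
      rw [h2, h4, one_mul]

/-- the linear map itself is one of the composite elements -/
theorem cf_sig (ρ : FreeGroup (Fin (k + 1)) →* S2) {M : ℕ}
    (f : Fin (k + 1) × Bool → Fin M → SD ρ × SD ρ)
    (hf : ∀ p, ∃ s, f p s = sig ρ (FreeGroup.mk [p], 1))
    (w : List (Fin (k + 1) × Bool)) : ∃ s, cf f w s = sig ρ (FreeGroup.mk w, 1) := by
  induction w with
  | nil => exact ⟨⟨0, Nat.one_pos⟩, rfl⟩
  | cons p w ih =>
    obtain ⟨s, hs⟩ := ih
    obtain ⟨s', hs'⟩ := hf p
    refine ⟨finProdFinEquiv (s', s), ?_⟩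
    show f p (finProdFinEquiv.symm (finProdFinEquiv (s', s))).1 *
      cf f w (finProdFinEquiv.symm (finProdFinEquiv (s', s))).2 = _
    rw [Equiv.symm_apply_apply, hs, hs', ← map_mul]
    congr 1

end

/-- the automaton of the family attached to a word -/
def AA {k κ M : ℕ} (a : Fin κ ⊕ (Fin (k + 1) × Bool) → Automaton M 16)
    (w : List (Fin (k + 1) × Bool)) : Automaton (κ * M + cstates M w) 16 :=
  (Automaton.union fun i : Fin κ => a (Sum.inl i)).sum (comp (fun p => a (Sum.inr p)) w)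

/-- its elements -/
def gg {k κ M : ℕ} {B : Type} [Group B] (f : Fin κ ⊕ (Fin (k + 1) × Bool) → Fin M → B)
    (w : List (Fin (k + 1) × Bool)) : Fin (κ * M + cstates M w) → B :=
  Fin.addCases (fun s => f (Sum.inl (finProdFinEquiv.symm s).1) (finProdFinEquiv.symm s).2)
    (cf (fun p => f (Sum.inr p)) w)

theorem gg_real {k κ M : ℕ} {B : Type} [Group B] [MulAction B (Z2 × Z2)]
    (dig : Fin 16 → Z2 × Z2) (a : Fin κ ⊕ (Fin (k + 1) × Bool) → Automaton M 16)
    (f : Fin κ ⊕ (Fin (k + 1) × Bool) → Fin M → B) (h : ∀ i, Real dig (a i) (f i))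
    (w : List (Fin (k + 1) × Bool)) : Real dig (AA a w) (gg f w) := by
  unfold AA gg
  apply Real.sum
  · exact Real.union dig fun i => h (Sum.inl i)
  · exact Real.comp dig (fun p => h (Sum.inr p)) w

/-- the tables of the family are computable -/
theorem AA_computable (hCODE : S_CODE) {k κ M : ℕ}
    (a : Fin κ ⊕ (Fin (k + 1) × Bool) → Automaton M 16) :
    Computable (fun w : List (Fin (k + 1) × Bool) => (AA a w).code) := by
  have h1 := hCODE (k + 1) M 16 (fun p => a (Sum.inr p))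
  have h2 : ∀ w : List (Fin (k + 1) × Bool), (AA a w).code =
      (κ * M + (cstates M w, (comp (fun p => a (Sum.inr p)) w).rows).1, 16,
        (Automaton.union fun i : Fin κ => a (Sum.inl i)).rows ++
          (cstates M w, (comp (fun p => a (Sum.inr p)) w).rows).2.map
            (fun r => r.map fun e => (κ * M + e.1, e.2))) := by
    intro w
    unfold Automaton.code AA
    rw [Automaton.rows_sum]
  have h3 : Computable (fun p : ℕ × List (List (ℕ × ℕ)) =>
      (κ * M + p.1, 16, (Automaton.union fun i : Fin κ => a (Sum.inl i)).rows ++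
        p.2.map (fun r => r.map fun e => (κ * M + e.1, e.2)))) := by
    apply Primrec.to_comp
    apply Primrec.pair
    · exact Primrec.nat_add.comp (Primrec.const _) Primrec.fst
    apply Primrec.pair
    · exact Primrec.const _
    apply Primrec.list_append.comp (Primrec.const _)
    apply Primrec.list_map Primrec.snd
    apply Primrec.list_map Primrec.snd
    apply Primrec.pair
    · exact Primrec.nat_add.comp (Primrec.const _) (Primrec.fst.comp Primrec.snd)
    · exact Primrec.snd.comp Primrec.snd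
  have h4 := h3.comp h1
  exact h4.of_eq fun w => (h2 w).symm

/-- the linear parts of the family -/
def ell {k κ : ℕ} {R : Finset (FreeGroup (Fin (k + 1)))} (e0 : Fin κ ≃ Fin (k + 1) ⊕ {r // r ∈ R}) :
    Fin κ ⊕ (Fin (k + 1) × Bool) → FreeGroup (Fin (k + 1)) × FreeGroup (Fin (k + 1)) :=
  Sum.elim (fun i => Sum.elim (fun j => (FreeGroup.of j, FreeGroup.of j))
    (fun r => (r.1, 1)) (e0 i)) (fun p => (FreeGroup.mk [p], 1))

/-- the group generated by the elements of the family is the fibre product -/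
theorem closure_gg (hGEN : S_GEN) {k κ M : ℕ} {R : Finset (FreeGroup (Fin (k + 1)))}
    (e0 : Fin κ ≃ Fin (k + 1) ⊕ {r // r ∈ R}) (ρ : FreeGroup (Fin (k + 1)) →* S2)
    (t : Fin κ ⊕ (Fin (k + 1) × Bool) → Fin M → Z2 × Z2)
    (hbox : ∀ i (c : Z2 × Z2), (∀ j, |c.1 j| ≤ 1) → (∀ j, |c.2 j| ≤ 1) → ∃ s, t i s = c)
    (w : List (Fin (k + 1) × Bool)) :
    Subgroup.closure (Set.range (gg (fun i s =>
      ((⟨(ell e0 i).1, (t i s).1⟩, ⟨(ell e0 i).2, (t i s).2⟩) : SD ρ × SD ρ)) w)) =
    fib ((Subgroup.normalClosure ((R : Set (FreeGroup (Fin (k + 1)))) ∪ {FreeGroup.mk w})).comap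
      (SD.proj ρ)) := by
  set N := Subgroup.normalClosure ((R : Set (FreeGroup (Fin (k + 1)))) ∪ {FreeGroup.mk w}) with hN
  set f : Fin κ ⊕ (Fin (k + 1) × Bool) → Fin M → SD ρ × SD ρ := fun i s =>
    ((⟨(ell e0 i).1, (t i s).1⟩, ⟨(ell e0 i).2, (t i s).2⟩) : SD ρ × SD ρ) with hf
  set C := Subgroup.closure (Set.range (gg f w)) with hC
  apply le_antisymm
  · rw [hC, Subgroup.closure_le]
    rintro _ ⟨s, rfl⟩
    rw [SetLike.mem_coe, mem_fib, Subgroup.mem_comap]
    induction s using Fin.addCases with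
    | left s =>
      show SD.proj ρ ((gg f w (Fin.castAdd _ s)).1 * (gg f w (Fin.castAdd _ s)).2⁻¹) ∈ N
      unfold gg
      rw [Fin.addCases_left]
      show (ell e0 (Sum.inl (finProdFinEquiv.symm s).1)).1 *
        (ell e0 (Sum.inl (finProdFinEquiv.symm s).1)).2⁻¹ ∈ N
      unfold ell
      rw [Sum.elim_inl]
      rcases e0 (finProdFinEquiv.symm s).1 with j | r
      · simp only [Sum.elim_inl]
        rw [mul_inv_cancel]
        exact N.one_mem
      · simp only [Sum.elim_inr]
        rw [inv_one, mul_one]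
        exact Subgroup.subset_normalClosure (Or.inl r.2)
    | right s =>
      unfold gg
      rw [Fin.addCases_right]
      have h := cf_lin ρ (fun p => f (Sum.inr p)) (fun p s => ⟨rfl, rfl⟩) w s
      rw [SD.proj_apply, SD.mul_l, SD.inv_l, h.1, h.2, inv_one, mul_one]
      exact Subgroup.subset_normalClosure (Or.inr rfl)
  · -- translations
    have hgen : ∀ (i : Fin κ) (c : Z2 × Z2), (∀ j, |c.1 j| ≤ 1) → (∀ j, |c.2 j| ≤ 1) →
        tau ρ c * sig ρ (ell e0 (Sum.inl i)) ∈ C := by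
      intro i c h1 h2
      obtain ⟨s, hs⟩ := hbox (Sum.inl i) c h1 h2
      have h3 : tau ρ c * sig ρ (ell e0 (Sum.inl i)) = gg f w (Fin.castAdd _
          (finProdFinEquiv (i, s))) := by
        unfold gg
        rw [Fin.addCases_left, Equiv.symm_apply_apply]
        rw [← tau_mul_sig (f (Sum.inl i) s)]
        show _ = tau ρ (t (Sum.inl i) s) * _
        rw [hs]
      rw [h3]
      exact Subgroup.subset_closure ⟨_, rfl⟩
    have hz1 : ∀ j, |(0 : Z2 × Z2).1 j| ≤ 1 := by intro j; simp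
    have hz2 : ∀ j, |(0 : Z2 × Z2).2 j| ≤ 1 := by intro j; simp
    have hsig : ∀ i : Fin κ, sig ρ (ell e0 (Sum.inl i)) ∈ C := by
      intro i
      have := hgen i 0 hz1 hz2
      rwa [tau_zero, one_mul] at this
    have hel0 : ell e0 (Sum.inl (e0.symm (Sum.inl 0))) = (FreeGroup.of 0, FreeGroup.of 0) := by
      unfold ell
      rw [Sum.elim_inl, Equiv.apply_symm_apply, Sum.elim_inl]
    have htau : ∀ c, tau ρ c ∈ C := by
      apply tau_mem_of_units
      intro c h1 h2
      have h3 := hgen (e0.symm (Sum.inl 0)) c h1 h2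
      have h4 := C.mul_mem h3 (C.inv_mem (hsig (e0.symm (Sum.inl 0))))
      rwa [mul_assoc, mul_inv_cancel, mul_one] at h4
    have hw : sig ρ (FreeGroup.mk w, 1) ∈ C := by
      obtain ⟨s, hs⟩ := cf_sig ρ (fun p => f (Sum.inr p)) (fun p => by
        obtain ⟨s, hs⟩ := hbox (Sum.inr p) 0 hz1 hz2
        refine ⟨s, ?_⟩
        rw [← tau_mul_sig (f (Sum.inr p) s)]
        show tau ρ (t (Sum.inr p) s) * _ = _
        rw [hs, tau_zero, one_mul]
        rfl) w
      rw [← hs]
      apply Subgroup.subset_closure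
      refine ⟨Fin.natAdd _ s, ?_⟩
      unfold gg
      rw [Fin.addCases_right]
    have hcl : fib N ≤ C.comap (sig ρ) := by
      have hG := hGEN (FreeGroup (Fin (k + 1))) (Set.range FreeGroup.of)
        ((R : Set (FreeGroup (Fin (k + 1)))) ∪ {FreeGroup.mk w}) (FreeGroup.closure_range_of _)
      refine le_trans (le_of_eq hG.symm) ?_
      rw [Subgroup.closure_le]
      rintro p (⟨_, ⟨j, rfl⟩, rfl⟩ | ⟨r, hr | hr, rfl⟩)
      · have h := hsig (e0.symm (Sum.inl j))
        unfold ell at h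
        rw [Sum.elim_inl, Equiv.apply_symm_apply, Sum.elim_inl] at h
        exact h
      · have h := hsig (e0.symm (Sum.inr ⟨r, hr⟩))
        unfold ell at h
        rw [Sum.elim_inl, Equiv.apply_symm_apply, Sum.elim_inr] at h
        exact h
      · rw [hr]
        exact hw
    intro g hg
    rw [← tau_mul_sig g]
    apply C.mul_mem (htau _)
    exact hcl hg

theorem cstates_pos {ι : Type} {M : ℕ} (hM : 0 < M) (w : List ι) : 0 < cstates M w := by
  induction w with
  | nil => exact Nat.one_pos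
  | cons i w ih => exact Nat.mul_pos hM ih

theorem main (hFIB : S_FIBISO) (hCENT : S_CENT) (hNON : S_NONMET) (hAUT : S_AUT) (hIDX : S_IDX)
    (hSAN : S_SAN) (hSCH : S_SCH) (hWORD : S_WORD) (hGEN : S_GEN) (hTREE : S_TREE)
    (hBASE : S_BASE) (hCODE : S_CODE) :
    ∃ (m₀ : ℕ) (B : Automaton m₀ 16), 1 ≤ m₀ ∧
      ¬ ∃ d : ℕ × ℕ × List (List (ℕ × ℕ)) → Bool, Computable d ∧
      ∀ (m : ℕ) (A : Automaton m 16), 1 ≤ m →
        (d A.code = true ↔ Nonempty (A.group ≃* B.group)) := by
  classical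
  obtain ⟨k, R, W, hk, hW, hnab, hund⟩ := hWORD
  obtain ⟨ρ, hρ, hfi⟩ := exists_rep hIDX hSAN hSCH k hk
  obtain ⟨dig, hdig, hbase⟩ := hBASE
  have htf : ∀ (x : FreeGroup (Fin (k + 1))) (n : ℕ), n ≠ 0 → x ^ n = 1 → x = 1 := by
    intro x n hn h
    exact (pow_eq_one_iff.1 h).resolve_right hn
  -- the family of linear parts
  let κ : ℕ := Fintype.card (Fin (k + 1) ⊕ {r // r ∈ R})
  let e0 : Fin κ ≃ Fin (k + 1) ⊕ {r // r ∈ R} := (Fintype.equivFin _).symm
  obtain ⟨M, a, t, hrel, hbox⟩ := hbase (Fin κ ⊕ (Fin (k + 1) × Bool)) (fun i => ρ (ell e0 i).1)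
    (fun i => ρ (ell e0 i).2)
  let f : (Fin κ ⊕ (Fin (k + 1) × Bool)) → Fin M → SD ρ × SD ρ := fun i s =>
    (⟨(ell e0 i).1, (t i s).1⟩, ⟨(ell e0 i).2, (t i s).2⟩)
  have hreal : ∀ i, Real dig (a i) (f i) := by
    intro i s x y
    exact hrel i s x y
  have := faithful ρ hρ
  obtain ⟨Φ, hΦi, hΦ⟩ := hTREE (Z2 × Z2) 16 dig hdig sep (SD ρ × SD ρ) (congr_pres ρ)
  have hgrp : ∀ w, (AA a w).group =
      (fib ((Subgroup.normalClosure ((R : Set (FreeGroup (Fin (k + 1)))) ∪
        {FreeGroup.mk w})).comap (SD.proj ρ))).map Φ := by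
    intro w
    rw [group_eq dig Φ hΦ (AA a w) (gg f w) (gg_real dig a f hreal w)]
    rw [closure_gg hGEN e0 ρ t hbox w]
  have hM : 0 < M := by
    obtain ⟨s, -⟩ := hbox (Sum.inr (0, true)) 0 (by intro j; simp) (by intro j; simp)
    exact s.pos
  have hpos : ∀ w : List (Fin (k + 1) × Bool), 1 ≤ κ * M + cstates M w := by
    intro w
    have := cstates_pos hM w
    omega
  refine ⟨_, AA a [], hpos [], ?_⟩
  rintro ⟨d, hd, hdA⟩
  apply hund
  have hcomp : Computable (fun n => d (AA a (W n)).code) :=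
    hd.comp ((AA_computable hCODE a).comp hW)
  have hiff : ∀ n, d (AA a (W n)).code = true ↔ FreeGroup.mk (W n) ∈
      Subgroup.normalClosure (R : Set (FreeGroup (Fin (k + 1)))) := by
    intro n
    rw [hdA _ _ (hpos _)]
    have hnil : Subgroup.normalClosure ((R : Set (FreeGroup (Fin (k + 1)))) ∪
        {FreeGroup.mk []}) = Subgroup.normalClosure (R : Set (FreeGroup (Fin (k + 1)))) := by
      apply le_antisymm
      · apply Subgroup.normalClosure_le_normal
        rintro x (hx | hx)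
        · exact Subgroup.subset_normalClosure hx
        · rw [Set.mem_singleton_iff.1 hx]
          exact Subgroup.one_mem _
      · exact Subgroup.normalClosure_mono Set.subset_union_left
    constructor
    · rintro ⟨e⟩
      rw [hgrp, hgrp] at e
      have e1 := Subgroup.equivMapOfInjective (fib ((Subgroup.normalClosure
        ((R : Set (FreeGroup (Fin (k + 1)))) ∪ {FreeGroup.mk (W n)})).comap (SD.proj ρ))) Φ hΦi
      have e2 := Subgroup.equivMapOfInjective (fib ((Subgroup.normalClosure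
        ((R : Set (FreeGroup (Fin (k + 1)))) ∪ {FreeGroup.mk []})).comap (SD.proj ρ))) Φ hΦi
      have e3 := (e1.trans e).trans e2.symm
      have h1 := rigid hFIB hCENT hNON hAUT (FreeGroup (Fin (k + 1))) ρ hρ htf hfi
        (Subgroup.normalClosure ((R : Set (FreeGroup (Fin (k + 1)))) ∪ {FreeGroup.mk (W n)}))
        (Subgroup.normalClosure ((R : Set (FreeGroup (Fin (k + 1)))) ∪ {FreeGroup.mk []}))
        (by
          rw [hnil]
          exact Subgroup.normalClosure_mono Set.subset_union_left)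
        (by rw [hnil]; exact hnab) ⟨e3⟩
      rw [← hnil, ← h1]
      exact Subgroup.subset_normalClosure (Or.inr rfl)
    · intro hmem
      have h1 : Subgroup.normalClosure ((R : Set (FreeGroup (Fin (k + 1)))) ∪
          {FreeGroup.mk (W n)}) = Subgroup.normalClosure
          ((R : Set (FreeGroup (Fin (k + 1)))) ∪ {FreeGroup.mk []}) := by
        rw [hnil]
        apply le_antisymm
        · apply Subgroup.normalClosure_le_normal
          rintro x (hx | hx)
          · exact Subgroup.subset_normalClosure hx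
          · rw [Set.mem_singleton_iff.1 hx]
            exact hmem
        · exact Subgroup.normalClosure_mono Set.subset_union_left
      have h2 : (AA a (W n)).group = (AA a []).group := by
        rw [hgrp, hgrp]
        congr 1
        apply fib_congr
        rw [h1]
      rw [h2]
      exact ⟨MulEquiv.refl _⟩
  rw [ComputablePred.computable_iff]
  refine ⟨_, hcomp, ?_⟩
  funext n
  exact propext (hiff n).symm

end Pool.Agent.W598.IA
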