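import Pool.Agent.W598.IA.Stm

/-!
Project IA (helper598): rigidity of the fibre products.
-/

set_option autoImplicit false

namespace Pool.Agent.W598.IA

open Subgroup

theorem iterate_mem {F : Type} [Group F] (N₁ N₂ : Subgroup F) (hle : N₂ ≤ N₁) (α : F ≃* F)
    (hα : ∀ x, x ∈ N₁ ↔ α x ∈ N₂) (j : ℕ) : ∀ x ∈ N₁, 1 ≤ j → (α : F → F)^[j] x ∈ N₂ := by
  induction j with
  | zero => intro x _ h; omega
  | succ j ih =>
    intro x hx _
    rw [Function.iterate_succ_apply]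
    rcases Nat.eq_zero_or_pos j with rfl | hj
    · exact (hα x).1 hx
    · exact ih _ (hle ((hα x).1 hx)) hj

/-- the normal subgroup is determined by the isomorphism type of the fibre product -/
theorem rigid (h1 : S_FIBISO) (h2 : S_CENT) (h3 : S_NONMET) (h4 : S_AUT)
    (F : Type) [Group F] (ρ : F →* S2) (hρ : Function.Injective ρ)
    (htf : ∀ (x : F) (n : ℕ), n ≠ 0 → x ^ n = 1 → x = 1) (hfi : ρ.range.FiniteIndex)
    (N₁ N₂ : Subgroup F) [N₁.Normal] [N₂.Normal] (hle : N₂ ≤ N₁)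
    (hN₂ : ∃ x ∈ N₂, ∃ y ∈ N₂, x * y ≠ y * x)
    (hiso : Nonempty (fib (N₁.comap (SD.proj ρ)) ≃* fib (N₂.comap (SD.proj ρ)))) : N₁ = N₂ := by
  have hN₁ : ∃ x ∈ N₁, ∃ y ∈ N₁, x * y ≠ y * x := by
    obtain ⟨x, hx, y, hy, hxy⟩ := hN₂
    exact ⟨x, hle hx, y, hle hy, hxy⟩
  obtain ⟨ψ, hψ⟩ := h1 (SD ρ) (N₁.comap (SD.proj ρ)) (N₂.comap (SD.proj ρ))
    (h2 F ρ hρ htf) (h3 F ρ hρ N₁ hN₁) (h3 F ρ hρ N₂ hN₂) hiso
  obtain ⟨α, hα, j, hj, f, hf⟩ := h4 F ρ hρ htf hfi ψ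
  have hmem : ∀ x, x ∈ N₁ ↔ α x ∈ N₂ := by
    intro x
    have := hψ ⟨x, 0⟩
    rw [Subgroup.mem_comap, Subgroup.mem_comap, SD.proj_apply, SD.proj_apply, hα] at this
    exact this
  apply le_antisymm _ hle
  intro x hx
  -- write `x = α^j y`
  have h5 : f⁻¹ * x * f ∈ N₁ := by
    have := (inferInstance : N₁.Normal).conj_mem x hx f⁻¹
    rwa [inv_inv] at this
  have h6 := iterate_mem N₁ N₂ hle α hmem j _ h5 hj
  rw [hf] at h6
  have h7 : f * (f⁻¹ * x * f) * f⁻¹ = x := by group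
  rwa [h7] at h6

/-- the free groups -/
theorem exists_rep (h1 : S_IDX) (h2 : S_SAN) (h3 : S_SCH) (k : ℕ) (hk : 1 ≤ k) :
    ∃ ρ : FreeGroup (Fin (k + 1)) →* S2, Function.Injective ρ ∧ ρ.range.FiniteIndex := by
  obtain ⟨θ, hθ, hθi⟩ := h3 k hk
  unfold S_SAN at h2
  set σ : FreeGroup (Fin 2) →* S2 := FreeGroup.lift
    ![(⟨!![1, 2; 0, 1], by simp [Matrix.det_fin_two]⟩ : S2),
      (⟨!![1, 0; 2, 1], by simp [Matrix.det_fin_two]⟩ : S2)] with hσ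
  refine ⟨σ.comp θ, h2.comp hθ, ?_⟩
  have h4 : σ.range.FiniteIndex := by
    apply h1
    · exact ⟨FreeGroup.of 0, by rw [hσ, FreeGroup.lift_apply_of]; rfl⟩
    · exact ⟨FreeGroup.of 1, by rw [hσ, FreeGroup.lift_apply_of]; rfl⟩
  rw [MonoidHom.range_comp]
  constructor
  rw [Subgroup.index_map]
  apply mul_ne_zero
  · have h5 : θ.range ≤ θ.range ⊔ σ.ker := le_sup_left
    exact (Subgroup.finiteIndex_of_le h5).index_ne_zero
  · exact h4.index_ne_zero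

end Pool.Agent.W598.IA
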