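import Pool.Agent.W598.IA.Defs

/-!
Project IA (helper598, MP_56d946_al): the isomorphism problem for self-similar groups.
Statements of the parts.
-/

set_option autoImplicit false

namespace Pool.Agent.W598.IA

/-- **IA-FIBISO**: an isomorphism of fibre products comes from an automorphism of `A` mapping
`N₁` onto `N₂`. -/
def S_FIBISO : Prop := ∀ (A : Type) [Group A] (N₁ N₂ : Subgroup A) [N₁.Normal] [N₂.Normal],
  (∀ g : A, g ≠ 1 → ∀ x y z w : A, Commute x g → Commute y g → Commute z g → Commute w g →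
    cm (cm x y) (cm z w) = 1) →
  (∃ x ∈ N₁, ∃ y ∈ N₁, ∃ z ∈ N₁, ∃ w ∈ N₁, cm (cm x y) (cm z w) ≠ 1) →
  (∃ x ∈ N₂, ∃ y ∈ N₂, ∃ z ∈ N₂, ∃ w ∈ N₂, cm (cm x y) (cm z w) ≠ 1) →
  Nonempty (fib N₁ ≃* fib N₂) → ∃ ψ : A ≃* A, ∀ g, g ∈ N₁ ↔ ψ g ∈ N₂

/-- **IA-CENT**: centralizers of nontrivial elements of `ℤ² ⋊ F` are metabelian. -/
def S_CENT : Prop := ∀ (F : Type) [Group F] (ρ : F →* S2), Function.Injective ρ →
  (∀ (x : F) (n : ℕ), n ≠ 0 → x ^ n = 1 → x = 1) → ∀ g : SD ρ, g ≠ 1 → ∀ x y z w : SD ρ,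
  Commute x g → Commute y g → Commute z g → Commute w g → cm (cm x y) (cm z w) = 1

/-- **IA-NONMET**: the preimage in `ℤ² ⋊ F` of a nonabelian normal subgroup of `F` is not
metabelian. -/
def S_NONMET : Prop := ∀ (F : Type) [Group F] (ρ : F →* S2), Function.Injective ρ →
  ∀ (N : Subgroup F) [N.Normal], (∃ x ∈ N, ∃ y ∈ N, x * y ≠ y * x) →
  ∃ x ∈ N.comap (SD.proj ρ), ∃ y ∈ N.comap (SD.proj ρ), ∃ z ∈ N.comap (SD.proj ρ),
    ∃ w ∈ N.comap (SD.proj ρ), cm (cm x y) (cm z w) ≠ 1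

/-- **IA-AUT**: an automorphism of `ℤ² ⋊ F`, where `F` has finite index in `SL_2(ℤ)` and is
torsion-free, induces an automorphism of `F` some power of which is inner. -/
def S_AUT : Prop := ∀ (F : Type) [Group F] (ρ : F →* S2), Function.Injective ρ →
  (∀ (x : F) (n : ℕ), n ≠ 0 → x ^ n = 1 → x = 1) → ρ.range.FiniteIndex →
  ∀ ψ : SD ρ ≃* SD ρ, ∃ α : F ≃* F, (∀ g, (ψ g).l = α g.l) ∧
    ∃ j : ℕ, 1 ≤ j ∧ ∃ f : F, ∀ x : F, (α : F → F)^[j] x = f * x * f⁻¹

/-- **IA-IDX**: the Sanov subgroup has finite index in `SL_2(ℤ)`. -/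
def S_IDX : Prop := ∀ H : Subgroup S2,
  (⟨!![1, 2; 0, 1], by simp [Matrix.det_fin_two]⟩ : S2) ∈ H →
  (⟨!![1, 0; 2, 1], by simp [Matrix.det_fin_two]⟩ : S2) ∈ H → H.FiniteIndex

/-- **IA-SAN**: the Sanov subgroup is free. -/
def S_SAN : Prop := Function.Injective (FreeGroup.lift
  ![(⟨!![1, 2; 0, 1], by simp [Matrix.det_fin_two]⟩ : S2),
    (⟨!![1, 0; 2, 1], by simp [Matrix.det_fin_two]⟩ : S2)] : FreeGroup (Fin 2) →* S2)

/-- **IA-SCH**: free subgroups of finite index of the free group of rank two. -/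
def S_SCH : Prop := ∀ k : ℕ, 1 ≤ k → ∃ θ : FreeGroup (Fin (k + 1)) →* FreeGroup (Fin 2),
  Function.Injective θ ∧ θ.range.FiniteIndex

/-- **IA-WORD**: a finitely presented group with undecidable word problem, with many relators. -/
def S_WORD : Prop := ∃ (k : ℕ) (R : Finset (FreeGroup (Fin (k + 1))))
  (W : ℕ → List (Fin (k + 1) × Bool)), 1 ≤ k ∧ Computable W ∧
  (∃ x ∈ Subgroup.normalClosure (R : Set (FreeGroup (Fin (k + 1)))),
    ∃ y ∈ Subgroup.normalClosure (R : Set (FreeGroup (Fin (k + 1)))), x * y ≠ y * x) ∧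
  ¬ ComputablePred (fun n => FreeGroup.mk (W n) ∈
    Subgroup.normalClosure (R : Set (FreeGroup (Fin (k + 1)))))

/-- **IA-GEN**: generators of the fibre product. -/
def S_GEN : Prop := ∀ (F : Type) [Group F] (X R : Set F), Subgroup.closure X = ⊤ →
  Subgroup.closure ({p : F × F | ∃ x ∈ X, p = (x, x)} ∪ {p : F × F | ∃ r ∈ R, p = (r, 1)}) =
    fib (Subgroup.normalClosure R)

/-- **IA-TREE**: the action on words of a group acting on `V` and preserving congruences modulo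
powers of two. -/
def S_TREE : Prop := ∀ (V : Type) [AddCommGroup V] (n : ℕ) (dig : Fin n → V),
  Function.Bijective (fun p : Fin n × V => dig p.1 + (2 : ℤ) • p.2) →
  (∀ v : V, (∀ k : ℕ, ∃ y : V, v = (2 ^ k : ℤ) • y) → v = 0) →
  ∀ (B : Type) [Group B] [MulAction B V] [FaithfulSMul B V],
  (∀ (b : B) (k : ℕ) (x y : V), (∃ z, x - y = (2 ^ k : ℤ) • z) →
    ∃ z, b • x - b • y = (2 ^ k : ℤ) • z) →
  ∃ Φ : B →* Equiv.Perm (List (Fin n)), Function.Injective Φ ∧
    ∀ (m : ℕ) (A : Automaton m n) (f : Fin m → B),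
      (∀ s x y, f s • (dig x + (2 : ℤ) • y) = dig (A.out s x) + (2 : ℤ) • (f (A.next s x) • y)) →
      ∀ s w, Φ (f s) w = A.act s w

/-- **IA-BASE**: for a finite family of pairs `(α i, β i)` of elements of `SL_2(ℤ)` the affine maps
of `ℤ² × ℤ²` with linear part `(α i, β i)` and small translation part are the states of finite
automata over the alphabet of 16 letters. -/
def S_BASE : Prop := ∃ dig : Fin 16 → Z2 × Z2,
  Function.Bijective (fun p : Fin 16 × (Z2 × Z2) => dig p.1 + (2 : ℤ) • p.2) ∧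
  ∀ (ι : Type) [Finite ι] (α β : ι → S2), ∃ (M : ℕ) (a : ι → Automaton M 16)
    (t : ι → Fin M → Z2 × Z2),
    (∀ i s x (y : Z2 × Z2),
      (lin (α i) (dig x + (2 : ℤ) • y).1, lin (β i) (dig x + (2 : ℤ) • y).2) + t i s =
        dig ((a i).out s x) + (2 : ℤ) • ((lin (α i) y.1, lin (β i) y.2) +
          t i ((a i).next s x))) ∧
    ∀ i (c : Z2 × Z2), (∀ j, |c.1 j| ≤ 1) → (∀ j, |c.2 j| ≤ 1) → ∃ s, t i s = c

/-- **IA-CODE**: the tables of the composite automaton are computable from the word. -/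
def S_CODE : Prop := ∀ (κ M n : ℕ) (a : Fin κ × Bool → Automaton M n),
  Computable (fun w : List (Fin κ × Bool) => (cstates M w, (comp a w).rows))

end Pool.Agent.W598.IA
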